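import Mathlib
import Pool.Agent.Helper540.Cara
import Pool.Agent.Helper540.Near
import Pool.Agent.Helper540.Osgood

set_option autoImplicit false

namespace Pool.Agent.Results.MP_2306a6_an.SharpSecond

open Metric Set Filter Topology Pool.Agent.Helper540

/-- A normalized Loewner chain on the Euclidean unit ball of `ℂ^n`: every `F t`, `t ≥ 0`, is
holomorphic and injective on the ball, `F t 0 = 0`, `D(F t)(0) = e^t I`, and the images increase. -/
structure IsLoewnerChain {n : ℕ}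
    (F : ℝ → EuclideanSpace ℂ (Fin n) → EuclideanSpace ℂ (Fin n)) : Prop where
  holo : ∀ t, 0 ≤ t → DifferentiableOn ℂ (F t) (ball 0 1)
  inj : ∀ t, 0 ≤ t → InjOn (F t) (ball 0 1)
  zero : ∀ t, 0 ≤ t → F t 0 = 0
  deriv : ∀ t, 0 ≤ t → fderiv ℂ (F t) 0 =
    ((Real.exp t : ℝ) : ℂ) • ContinuousLinearMap.id ℂ (EuclideanSpace ℂ (Fin n))
  sub : ∀ s t, 0 ≤ s → s ≤ t → F s '' ball 0 1 ⊆ F t '' ball 0 1

/-- A family of maps is normal on the unit ball if every sequence in it has a subsequence which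
converges locally uniformly on the ball. -/
def IsNormalFamily {n : ℕ} (𝓕 : Set (EuclideanSpace ℂ (Fin n) → EuclideanSpace ℂ (Fin n))) :
    Prop :=
  ∀ g : ℕ → EuclideanSpace ℂ (Fin n) → EuclideanSpace ℂ (Fin n), (∀ k, g k ∈ 𝓕) →
    ∃ φ : ℕ → ℕ, StrictMono φ ∧ ∃ G : EuclideanSpace ℂ (Fin n) → EuclideanSpace ℂ (Fin n),
      TendstoLocallyUniformlyOn (fun k => g (φ k)) G atTop (ball 0 1)

/-- The class `S^0` of maps with parametric representation: `f = F 0` for a normalized Loewner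
chain `F` such that the maps `e^{-t} F t`, `t ≥ 0`, form a normal family on the unit ball. -/
def classS0 (n : ℕ) : Set (EuclideanSpace ℂ (Fin n) → EuclideanSpace ℂ (Fin n)) :=
  {f | ∃ F : ℝ → EuclideanSpace ℂ (Fin n) → EuclideanSpace ℂ (Fin n), IsLoewnerChain F ∧
    F 0 = f ∧ IsNormalFamily {g | ∃ t : ℝ, 0 ≤ t ∧ g = fun z => ((Real.exp (-t) : ℝ) : ℂ) • F t z}}

/-- The second order term `P_2(z) = (1/2) D^2 f(0)(z,z)`. -/
noncomputable def quadPart {n : ℕ} (f : EuclideanSpace ℂ (Fin n) → EuclideanSpace ℂ (Fin n))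
    (z : EuclideanSpace ℂ (Fin n)) : EuclideanSpace ℂ (Fin n) :=
  (1 / 2 : ℂ) • iteratedFDeriv ℂ 2 f 0 ![z, z]

/-- `‖P_2‖`, the supremum of `‖P_2(z)‖` over the unit sphere. -/
noncomputable def quadNorm {n : ℕ} (f : EuclideanSpace ℂ (Fin n) → EuclideanSpace ℂ (Fin n)) :
    ℝ :=
  sSup ((fun z => ‖quadPart f z‖) '' sphere (0 : EuclideanSpace ℂ (Fin n)) 1)

variable {n : ℕ}

theorem quadPart_eq {f : EuclideanSpace ℂ (Fin n) → EuclideanSpace ℂ (Fin n)}
    (hf : DifferentiableOn ℂ f (ball 0 1)) (z : EuclideanSpace ℂ (Fin n)) :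
    quadPart f z = tc 2 (fun ζ : ℂ => f (ζ • z)) := by
  rw [tc_slice one_pos hf, quadPart]
  congr 1
  · norm_num [Nat.factorial]
  · congr 1
    ext i : 1
    fin_cases i <;> rfl

/-- The transition maps of a Loewner chain. -/
theorem transition {F : ℝ → EuclideanSpace ℂ (Fin n) → EuclideanSpace ℂ (Fin n)}
    (hF : IsLoewnerChain F) {s t : ℝ} (hs : 0 ≤ s) (hst : s ≤ t) :
    ∃ v : EuclideanSpace ℂ (Fin n) → EuclideanSpace ℂ (Fin n),
      DifferentiableOn ℂ v (ball 0 1) ∧ MapsTo v (ball 0 1) (ball 0 1) ∧ v 0 = 0 ∧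
      (∀ z ∈ ball (0 : EuclideanSpace ℂ (Fin n)) 1, F t (v z) = F s z) ∧
      fderiv ℂ v 0 =
        ((Real.exp (s - t) : ℝ) : ℂ) • ContinuousLinearMap.id ℂ (EuclideanSpace ℂ (Fin n)) := by
  have ht : 0 ≤ t := hs.trans hst
  have hex : ∀ z : EuclideanSpace ℂ (Fin n), ∃ w : EuclideanSpace ℂ (Fin n),
      z ∈ ball (0 : EuclideanSpace ℂ (Fin n)) 1 →
        w ∈ ball (0 : EuclideanSpace ℂ (Fin n)) 1 ∧ F t w = F s z := by
    intro z
    by_cases hz : z ∈ ball (0 : EuclideanSpace ℂ (Fin n)) 1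
    · obtain ⟨w, hw, hwz⟩ := hF.sub s t hs hst ⟨z, hz, rfl⟩
      exact ⟨w, fun _ => ⟨hw, hwz⟩⟩
    · exact ⟨0, fun h => absurd h hz⟩
  choose v hv using hex
  have h0 : (0 : EuclideanSpace ℂ (Fin n)) ∈ ball (0 : EuclideanSpace ℂ (Fin n)) 1 :=
    mem_ball_self one_pos
  have hv0 : v 0 = 0 := by
    apply hF.inj t ht (hv 0 h0).1 h0
    rw [(hv 0 h0).2, hF.zero s hs, hF.zero t ht]
  have hd : DifferentiableOn ℂ v (ball 0 1) :=
    differentiableOn_of_comp rfl isOpen_ball isOpen_ball (hF.holo t ht) (hF.inj t ht)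
      (hF.holo s hs) (fun z hz => (hv z hz).1) (fun z hz => (hv z hz).2)
  refine ⟨v, hd, fun z hz => (hv z hz).1, hv0, fun z hz => (hv z hz).2, ?_⟩
  have hb : ball (0 : EuclideanSpace ℂ (Fin n)) 1 ∈ 𝓝 (0 : EuclideanSpace ℂ (Fin n)) :=
    isOpen_ball.mem_nhds h0
  have hvd : HasFDerivAt v (fderiv ℂ v 0) 0 := (hd.differentiableAt hb).hasFDerivAt
  have hFt : HasFDerivAt (F t) (fderiv ℂ (F t) 0) (v 0) := by
    rw [hv0]
    exact ((hF.holo t ht).differentiableAt hb).hasFDerivAt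
  have hFs : HasFDerivAt (F s) (fderiv ℂ (F s) 0) 0 :=
    ((hF.holo s hs).differentiableAt hb).hasFDerivAt
  have hcomp := hFt.comp 0 hvd
  have heq : F t ∘ v =ᶠ[𝓝 0] F s := by
    filter_upwards [hb] with z hz using (hv z hz).2
  have h1 := (hcomp.congr_of_eventuallyEq heq.symm).unique hFs
  rw [hF.deriv t ht, hF.deriv s hs] at h1
  have hexp : ((Real.exp (s - t) : ℝ) : ℂ) * ((Real.exp t : ℝ) : ℂ) = ((Real.exp s : ℝ) : ℂ) := by
    rw [← Complex.ofReal_mul, ← Real.exp_add]; congr 2; ring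
  have hne : ((Real.exp t : ℝ) : ℂ) ≠ 0 := by exact_mod_cast (Real.exp_pos t).ne'
  ext1 x
  have h2 := congrArg (fun T : EuclideanSpace ℂ (Fin n) →L[ℂ] EuclideanSpace ℂ (Fin n) => T x) h1
  simp only [ContinuousLinearMap.comp_apply, smul_apply,
    ContinuousLinearMap.id_apply] at h2 ⊢
  have h3 : ((Real.exp t : ℝ) : ℂ) • (fderiv ℂ v 0 x - ((Real.exp (s - t) : ℝ) : ℂ) • x) = 0 := by
    rw [smul_sub, h2, smul_smul, mul_comm, hexp, sub_self]
  exact sub_eq_zero.1 ((smul_eq_zero.1 h3).resolve_left hne)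

/-- The normalized second coefficient along a chain. -/
noncomputable def cof (F : ℝ → EuclideanSpace ℂ (Fin n) → EuclideanSpace ℂ (Fin n))
    (u : EuclideanSpace ℂ (Fin n)) (t : ℝ) : ℝ :=
  Real.exp (-t) * ‖tc 2 (fun ζ : ℂ => F t (ζ • u))‖

theorem slice_diff {h : EuclideanSpace ℂ (Fin n) → EuclideanSpace ℂ (Fin n)}
    (hd : DifferentiableOn ℂ h (ball 0 1)) {u : EuclideanSpace ℂ (Fin n)} (hu : ‖u‖ ≤ 1) :
    DifferentiableOn ℂ (fun ζ : ℂ => h (ζ • u)) (ball 0 1) := by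
  apply hd.comp (by fun_prop)
  intro ζ hζ
  rw [mem_ball_zero_iff] at *
  rw [norm_smul]
  calc ‖ζ‖ * ‖u‖ ≤ ‖ζ‖ * 1 := by gcongr
    _ < 1 := by linarith

theorem cof_step {F : ℝ → EuclideanSpace ℂ (Fin n) → EuclideanSpace ℂ (Fin n)}
    (hF : IsLoewnerChain F) {u : EuclideanSpace ℂ (Fin n)} (hu : ‖u‖ = 1) {s δ : ℝ}
    (hs : 0 ≤ s) (hδ : 0 < δ) :
    cof F u s ≤ Real.sqrt (((2 : ℕ) + 1 : ℝ) ^ (2 + 1) / ((2 : ℕ) : ℝ) ^ 2) * (Real.exp δ - 1) +
      Real.exp (-δ) * cof F u (s + δ) := by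
  set C : ℝ := Real.sqrt (((2 : ℕ) + 1 : ℝ) ^ (2 + 1) / ((2 : ℕ) : ℝ) ^ 2) with hC
  have ht : 0 ≤ s + δ := by linarith
  obtain ⟨v, hvd, hvm, hv0, hvF, hvD⟩ := transition hF hs (by linarith : s ≤ s + δ)
  have e0 : s - (s + δ) = -δ := by ring
  rw [e0] at hvD
  set lam : ℝ := Real.exp (-δ) with hlam
  have hlam0 : 0 < lam := Real.exp_pos _
  have hlam1 : lam < 1 := by rw [hlam, Real.exp_lt_one_iff]; linarith
  have hlδ : lam * Real.exp δ = 1 := by rw [hlam, ← Real.exp_add]; simp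
  have hlamC : (1 - (lam : ℂ)) ≠ 0 := by
    intro h
    have : (1 - lam : ℝ) = 0 := by exact_mod_cast h
    linarith
  -- the bound for the transition map
  set g : EuclideanSpace ℂ (Fin n) → EuclideanSpace ℂ (Fin n) :=
    fun z => (1 - (lam : ℂ))⁻¹ • (z - v z) with hg
  have hgd : DifferentiableOn ℂ g (ball 0 1) := by
    have h1 : DifferentiableOn ℂ (fun z : EuclideanSpace ℂ (Fin n) => z) (ball 0 1) :=
      differentiableOn_id
    exact (h1.fun_sub hvd).fun_const_smul ((1 - (lam : ℂ))⁻¹)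
  have hg0 : g 0 = 0 := by simp [hg, hv0]
  have hb : ball (0 : EuclideanSpace ℂ (Fin n)) 1 ∈ 𝓝 (0 : EuclideanSpace ℂ (Fin n)) :=
    ball_mem_nhds _ one_pos
  have hvd0 : HasFDerivAt v ((lam : ℂ) • ContinuousLinearMap.id ℂ (EuclideanSpace ℂ (Fin n))) 0 := by
    rw [← hvD]
    exact (hvd.differentiableAt hb).hasFDerivAt
  have hgD : fderiv ℂ g 0 = ContinuousLinearMap.id ℂ (EuclideanSpace ℂ (Fin n)) := by
    have h1 : HasFDerivAt g ((1 - (lam : ℂ))⁻¹ • (ContinuousLinearMap.id ℂ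
        (EuclideanSpace ℂ (Fin n)) - (lam : ℂ) • ContinuousLinearMap.id ℂ
        (EuclideanSpace ℂ (Fin n)))) 0 :=
      ((hasFDerivAt_id (𝕜 := ℂ) (0 : EuclideanSpace ℂ (Fin n))).sub hvd0).const_smul
        (1 - (lam : ℂ))⁻¹
    rw [h1.fderiv]
    ext1 x
    show (1 - (lam : ℂ))⁻¹ • (x - (lam : ℂ) • x) = x
    rw [show x - (lam : ℂ) • x = (1 - (lam : ℂ)) • x by rw [sub_smul, one_smul], smul_smul,
      inv_mul_cancel₀ hlamC, one_smul]
  have hgpos : ∀ z ∈ ball (0 : EuclideanSpace ℂ (Fin n)) 1, 0 ≤ (inner ℂ z (g z)).re := by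
    intro z hz
    have hvz : ‖v z‖ ≤ ‖z‖ := Complex.norm_le_norm_of_mapsTo_ball hvd
      (hvm.mono_right ball_subset_closedBall) hv0 (mem_ball_zero_iff.1 hz)
    have h1 : inner ℂ z (g z) = ((1 - lam : ℝ) : ℂ)⁻¹ * (inner ℂ z z - inner ℂ z (v z)) := by
      rw [hg]
      simp only [inner_smul_right, inner_sub_right]
      push_cast
      ring
    rw [h1, ← Complex.ofReal_inv, Complex.re_ofReal_mul, Complex.sub_re]
    have h2 : (inner ℂ z z : ℂ).re = ‖z‖ ^ 2 := by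
      have := inner_self_eq_norm_sq (𝕜 := ℂ) z
      simpa using this
    have h3 : (inner ℂ z (v z) : ℂ).re ≤ ‖z‖ * ‖v z‖ :=
      (Complex.re_le_norm _).trans (norm_inner_le_norm _ _)
    have h4 : ‖z‖ * ‖v z‖ ≤ ‖z‖ * ‖z‖ := by gcongr
    apply mul_nonneg
    · exact inv_nonneg.2 (by linarith)
    · rw [h2]; nlinarith
  have hcoef := norm_tc_le hgd hg0 hgD hgpos (le_refl 2) hu
  have hvs : DifferentiableOn ℂ (fun ζ : ℂ => v (ζ • u)) (ball 0 1) := slice_diff hvd hu.le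
  have hvtc : ‖tc 2 (fun ζ : ℂ => v (ζ • u))‖ ≤ (1 - lam) * C := by
    have h1 : tc 2 (fun ζ : ℂ => v (ζ • u)) =
        -((1 - (lam : ℂ)) • tc 2 (fun ζ : ℂ => g (ζ • u))) := by
      have h2 : (fun ζ : ℂ => v (ζ • u)) = fun ζ : ℂ => ζ ^ 1 • u -
          ((1 - (lam : ℂ)) • ContinuousLinearMap.id ℂ (EuclideanSpace ℂ (Fin n))) (g (ζ • u)) := by
        ext1 ζ
        simp only [hg, smul_apply, ContinuousLinearMap.id_apply, smul_smul,
          mul_inv_cancel₀ hlamC, one_smul, pow_one]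
        abel
      have hgs : ContDiffAt ℂ 2 (fun ζ : ℂ => g (ζ • u)) 0 :=
        contDiffAt_of_ball one_pos (slice_diff hgd hu.le) 2
      have hgs2 : ContDiffAt ℂ 2 (fun ζ : ℂ => ((1 - (lam : ℂ)) •
          ContinuousLinearMap.id ℂ (EuclideanSpace ℂ (Fin n))) (g (ζ • u))) 0 :=
        (ContinuousLinearMap.contDiff _).contDiffAt.comp 0 hgs
      rw [h2, tc_sub 2 (by fun_prop) hgs2, tc_pow_smul, if_neg (by norm_num), tc_clm _ 2 hgs]
      simp
    rw [h1, norm_neg, norm_smul]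
    have h3 : ‖(1 - (lam : ℂ))‖ = 1 - lam := by
      have : (1 - (lam : ℂ)) = ((1 - lam : ℝ) : ℂ) := by push_cast; ring
      rw [this, Complex.norm_real, Real.norm_of_nonneg (by linarith)]
    rw [h3]
    exact mul_le_mul_of_nonneg_left hcoef (by linarith)
  -- the expansion of the composition
  have hFs := hF.holo s hs
  have hFt := hF.holo (s + δ) ht
  set A : ℂ := ((Real.exp (s + δ) : ℝ) : ℂ) with hA
  have hFtD : fderiv ℂ (F (s + δ)) 0 = A • ContinuousLinearMap.id ℂ (EuclideanSpace ℂ (Fin n)) :=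
    hF.deriv _ ht
  obtain ⟨d1, hd1, C1, hC1, hd1R, hb1⟩ := near_zero_gen one_pos hFt
  obtain ⟨d2, hd2, C2, hC2, hd2R, hb2⟩ := near_zero_gen one_pos hvd
  have hslF : ∀ a : ℂ, ‖a‖ ≤ 1 → DifferentiableOn ℂ
      (fun ζ : ℂ => F (s + δ) ((ζ * a) • u)) (ball 0 1) := by
    intro a ha
    have h1 : (fun ζ : ℂ => F (s + δ) ((ζ * a) • u)) = fun ζ : ℂ => F (s + δ) (ζ • (a • u)) := by
      ext1 ζ; rw [smul_smul]
    rw [h1]
    apply slice_diff hFt
    rw [norm_smul, hu, mul_one]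
    exact ha
  have hlamn : ‖(lam : ℂ)‖ = lam := by rw [Complex.norm_real, Real.norm_of_nonneg hlam0.le]
  have hdiffR : DifferentiableOn ℂ (fun ζ : ℂ => F s (ζ • u) - F (s + δ) ((ζ * (lam : ℂ)) • u) -
      (A • ContinuousLinearMap.id ℂ (EuclideanSpace ℂ (Fin n))) (v (ζ • u) -
        ζ ^ 1 • ((lam : ℂ) • u))) (ball 0 1) := by
    apply DifferentiableOn.sub
    · exact (slice_diff hFs hu.le).sub (hslF _ (by rw [hlamn]; exact hlam1.le))
    · apply (ContinuousLinearMap.differentiable _).comp_differentiableOn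
      exact hvs.sub (by fun_prop)
  have hzero : tc 2 (fun ζ : ℂ => F s (ζ • u) - F (s + δ) ((ζ * (lam : ℂ)) • u) -
      (A • ContinuousLinearMap.id ℂ (EuclideanSpace ℂ (Fin n))) (v (ζ • u) -
        ζ ^ 1 • ((lam : ℂ) • u))) = 0 := by
    set ρ : ℝ := min d1 d2 with hρ
    have hρ0 : 0 < ρ := lt_min hd1 hd2
    have hρ1 : ρ ≤ 1 := (min_le_left _ _).trans hd1R.le
    apply tc_eq_zero_of_bound (R := ρ) (C := C1 * C2) 2 hρ0
      (hdiffR.mono (ball_subset_ball hρ1))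
    intro ζ hζ
    rw [mem_ball_zero_iff] at hζ
    have hζ1 : ‖ζ • u‖ = ‖ζ‖ := by rw [norm_smul, hu, mul_one]
    have hζb : ζ • u ∈ ball (0 : EuclideanSpace ℂ (Fin n)) 1 := by
      rw [mem_ball_zero_iff, hζ1]; linarith
    have hvζ : ‖v (ζ • u)‖ ≤ ‖ζ‖ := by
      rw [← hζ1]
      exact Complex.norm_le_norm_of_mapsTo_ball hvd
        (hvm.mono_right ball_subset_closedBall) hv0 (mem_ball_zero_iff.1 hζb)
    have hlζ : ‖(ζ * (lam : ℂ)) • u‖ ≤ ‖ζ‖ := by
      rw [norm_smul, norm_mul, hu, mul_one, hlamn]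
      exact mul_le_of_le_one_right (norm_nonneg _) hlam1.le
    have hp1 : ‖v (ζ • u)‖ < d1 := hvζ.trans_lt (hζ.trans_le (min_le_left _ _))
    have hp2 : ‖(ζ * (lam : ℂ)) • u‖ < d1 := hlζ.trans_lt (hζ.trans_le (min_le_left _ _))
    have h1 := hb1 _ _ hp1 hp2
    rw [hvF _ hζb, hFtD] at h1
    have h2 := hb2 (ζ • u) 0 (by rw [hζ1]; exact hζ.trans_le (min_le_right _ _))
      (by rw [norm_zero]; exact hd2)
    rw [hv0, hvD, sub_zero, sub_zero, norm_zero, hζ1, max_eq_left (norm_nonneg _)] at h2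
    have h3 : ‖v (ζ • u) - (ζ * (lam : ℂ)) • u‖ ≤ C2 * ‖ζ‖ * ‖ζ‖ := by
      have h4 : ((lam : ℂ) • ContinuousLinearMap.id ℂ (EuclideanSpace ℂ (Fin n))) (ζ • u) =
          (ζ * (lam : ℂ)) • u := by
        simp only [smul_apply, ContinuousLinearMap.id_apply, smul_smul]
        rw [mul_comm]
      rw [h4] at h2
      exact h2
    have h5 : max ‖v (ζ • u)‖ ‖(ζ * (lam : ℂ)) • u‖ ≤ ‖ζ‖ := max_le hvζ hlζ
    have h6 : ζ ^ 1 • ((lam : ℂ) • u) = (ζ * (lam : ℂ)) • u := by rw [pow_one, smul_smul]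
    rw [h6]
    calc _ ≤ C1 * max ‖v (ζ • u)‖ ‖(ζ * (lam : ℂ)) • u‖ *
          ‖v (ζ • u) - (ζ * (lam : ℂ)) • u‖ := h1
      _ ≤ C1 * ‖ζ‖ * (C2 * ‖ζ‖ * ‖ζ‖) := by gcongr
      _ = C1 * C2 * ‖ζ‖ ^ (2 + 1) := by ring
  have hsF : ContDiffAt ℂ 2 (fun ζ : ℂ => F s (ζ • u)) 0 :=
    contDiffAt_of_ball one_pos (slice_diff hFs hu.le) 2
  have hsFt : ContDiffAt ℂ 2 (fun ζ : ℂ => F (s + δ) ((ζ * (lam : ℂ)) • u)) 0 :=
    contDiffAt_of_ball one_pos (hslF _ (by rw [hlamn]; exact hlam1.le)) 2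
  have hsv : ContDiffAt ℂ 2 (fun ζ : ℂ => v (ζ • u)) 0 := contDiffAt_of_ball one_pos hvs 2
  have hsp : ContDiffAt ℂ 2 (fun ζ : ℂ => ζ ^ 1 • ((lam : ℂ) • u)) 0 := by fun_prop
  have hsc2 : ContDiffAt ℂ 2 (fun ζ : ℂ => (A • ContinuousLinearMap.id ℂ
      (EuclideanSpace ℂ (Fin n))) (v (ζ • u) - ζ ^ 1 • ((lam : ℂ) • u))) 0 :=
    (ContinuousLinearMap.contDiff _).contDiffAt.comp 0 (hsv.sub hsp)
  rw [tc_sub 2 (hsF.sub hsFt) hsc2, tc_sub 2 hsF hsFt, tc_clm _ 2 (hsv.sub hsp), tc_sub 2 hsv hsp, tc_pow_smul,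
    if_neg (by norm_num), sub_zero] at hzero
  have hsc : tc 2 (fun ζ : ℂ => F (s + δ) ((ζ * (lam : ℂ)) • u)) =
      (lam : ℂ) ^ 2 • tc 2 (fun ζ : ℂ => F (s + δ) (ζ • u)) := by
    have := tc_comp_smul one_pos (slice_diff hFt hu.le) 2 (lam : ℂ)
    simpa [smul_eq_mul] using this
  rw [hsc] at hzero
  have hmain : tc 2 (fun ζ : ℂ => F s (ζ • u)) =
      (lam : ℂ) ^ 2 • tc 2 (fun ζ : ℂ => F (s + δ) (ζ • u)) +
        A • tc 2 (fun ζ : ℂ => v (ζ • u)) := by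
    have h1 : tc 2 (fun ζ : ℂ => F s (ζ • u)) -
      ((lam : ℂ) ^ 2 • tc 2 (fun ζ : ℂ => F (s + δ) (ζ • u)) +
        A • tc 2 (fun ζ : ℂ => v (ζ • u))) = 0 := by
      rw [← hzero]
      simp only [smul_apply, ContinuousLinearMap.id_apply]
      abel
    exact sub_eq_zero.1 h1
  have hn : ‖tc 2 (fun ζ : ℂ => F s (ζ • u))‖ ≤
      lam ^ 2 * ‖tc 2 (fun ζ : ℂ => F (s + δ) (ζ • u))‖ + Real.exp (s + δ) * ((1 - lam) * C) := by
    rw [hmain]
    refine (norm_add_le _ _).trans ?_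
    rw [norm_smul, norm_smul, norm_pow, hlamn, hA, Complex.norm_real,
      Real.norm_of_nonneg (Real.exp_pos _).le]
    gcongr
  rw [cof, cof]
  have e1 : Real.exp (-s) * Real.exp (s + δ) = Real.exp δ := by
    rw [← Real.exp_add]; congr 1; ring
  have e2 : Real.exp (-s) * lam = Real.exp (-(s + δ)) := by
    rw [hlam, ← Real.exp_add]; congr 1; ring
  calc Real.exp (-s) * ‖tc 2 (fun ζ : ℂ => F s (ζ • u))‖
      ≤ Real.exp (-s) * (lam ^ 2 * ‖tc 2 (fun ζ : ℂ => F (s + δ) (ζ • u))‖ +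
        Real.exp (s + δ) * ((1 - lam) * C)) := by
        gcongr
    _ = C * ((Real.exp (-s) * Real.exp (s + δ)) * (1 - lam)) + lam * ((Real.exp (-s) * lam) *
        ‖tc 2 (fun ζ : ℂ => F (s + δ) (ζ • u))‖) := by ring
    _ = C * (Real.exp δ - 1) + lam * (Real.exp (-(s + δ)) *
        ‖tc 2 (fun ζ : ℂ => F (s + δ) (ζ • u))‖) := by
        rw [e1, e2]
        have : Real.exp δ * (1 - lam) = Real.exp δ - 1 := by
          rw [mul_sub, mul_one, mul_comm (Real.exp δ) lam, hlδ]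
        rw [this]

theorem cof_bdd {F : ℝ → EuclideanSpace ℂ (Fin n) → EuclideanSpace ℂ (Fin n)}
    (hF : IsLoewnerChain F)
    (hN : IsNormalFamily {g | ∃ t : ℝ, 0 ≤ t ∧ g = fun z => ((Real.exp (-t) : ℝ) : ℂ) • F t z})
    {u : EuclideanSpace ℂ (Fin n)} (hu : ‖u‖ = 1) : ∃ M : ℝ, ∀ t : ℝ, 0 ≤ t → cof F u t ≤ M := by
  by_contra hcon
  push Not at hcon
  have hch : ∀ k : ℕ, ∃ t : ℝ, 0 ≤ t ∧ (k : ℝ) < cof F u t := fun k => hcon k
  choose τ hτ0 hτ using hch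
  set g : ℕ → EuclideanSpace ℂ (Fin n) → EuclideanSpace ℂ (Fin n) :=
    fun k z => ((Real.exp (-(τ k)) : ℝ) : ℂ) • F (τ k) z with hg
  obtain ⟨φ, hφ, G, hG⟩ := hN g (fun k => ⟨τ k, hτ0 k, rfl⟩)
  have hgd : ∀ k, DifferentiableOn ℂ (g k) (ball 0 1) := fun k =>
    (hF.holo _ (hτ0 k)).fun_const_smul _
  have hK : closedBall (0 : EuclideanSpace ℂ (Fin n)) (1 / 2) ⊆ ball 0 1 :=
    closedBall_subset_ball (by norm_num)
  have hu1 := (tendstoLocallyUniformlyOn_iff_forall_isCompact isOpen_ball).1 hG _ hK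
    (isCompact_closedBall _ _)
  rw [Metric.tendstoUniformlyOn_iff] at hu1
  obtain ⟨N, hNN⟩ := eventually_atTop.1 (hu1 1 one_pos)
  have hcN : ContinuousOn (fun z => ‖g (φ N) z‖) (closedBall 0 (1 / 2)) :=
    ((hgd _).continuousOn.mono hK).norm
  obtain ⟨B, hB⟩ := (isCompact_closedBall (0 : EuclideanSpace ℂ (Fin n)) (1 / 2)).bddAbove_image hcN
  have hbound : ∀ k, N ≤ k → ∀ z ∈ closedBall (0 : EuclideanSpace ℂ (Fin n)) (1 / 2),
      ‖g (φ k) z‖ ≤ B + 2 := by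
    intro k hk z hz
    have h1 := hNN k hk z hz
    have h2 := hNN N le_rfl z hz
    have h3 : ‖g (φ N) z‖ ≤ B := hB ⟨z, hz, rfl⟩
    rw [dist_eq_norm] at h1 h2
    have h4 : g (φ k) z = g (φ N) z + ((G z - g (φ N) z) - (G z - g (φ k) z)) := by abel
    rw [h4]
    refine (norm_add_le _ _).trans ?_
    have h5 := norm_sub_le (G z - g (φ N) z) (G z - g (φ k) z)
    linarith
  have hcof : ∀ k, N ≤ k → cof F u (τ (φ k)) ≤ 4 * (B + 2) := by
    intro k hk
    have h1 : cof F u (τ (φ k)) = ‖tc 2 (fun ζ : ℂ => g (φ k) (ζ • u))‖ := by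
      have h2 : (fun ζ : ℂ => g (φ k) (ζ • u)) = fun ζ : ℂ =>
          (((Real.exp (-(τ (φ k))) : ℝ) : ℂ) • ContinuousLinearMap.id ℂ
            (EuclideanSpace ℂ (Fin n))) (F (τ (φ k)) (ζ • u)) := rfl
      have h3 : ContDiffAt ℂ 2 (fun ζ : ℂ => F (τ (φ k)) (ζ • u)) 0 :=
        contDiffAt_of_ball one_pos (slice_diff (hF.holo _ (hτ0 _)) hu.le) 2
      rw [h2, tc_clm _ 2 h3]
      simp only [smul_apply, ContinuousLinearMap.id_apply]
      rw [norm_smul, Complex.norm_real, Real.norm_of_nonneg (Real.exp_pos _).le, cof]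
    have h2 : DiffContOnCl ℂ (fun ζ : ℂ => g (φ k) (ζ • u)) (ball 0 (1 / 2)) := by
      apply DifferentiableOn.diffContOnCl_ball (slice_diff (hgd _) hu.le)
      exact closedBall_subset_ball (by norm_num)
    have h3 := Complex.norm_iteratedDeriv_le_of_forall_mem_sphere_norm_le 2 (by norm_num : (0:ℝ) < 1/2)
      h2 (C := B + 2) (by
        intro ζ hζ
        apply hbound k hk
        rw [mem_closedBall_zero_iff, norm_smul, hu, mul_one]
        rw [mem_sphere_zero_iff_norm] at hζ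
        exact hζ.le)
    rw [h1, tc, norm_smul]
    have h4 : ‖((Nat.factorial 2 : ℕ) : ℂ)⁻¹‖ = 1 / 2 := by norm_num [Nat.factorial]
    rw [h4]
    norm_num [Nat.factorial] at h3
    linarith
  obtain ⟨m, hm⟩ := exists_nat_gt (4 * (B + 2))
  have h1 := hcof (max N m) (le_max_left _ _)
  have h2 := hτ (φ (max N m))
  have h3 : (m : ℝ) ≤ (φ (max N m) : ℝ) := by
    exact_mod_cast (le_max_right N m).trans (hφ.id_le _)
  linarith

theorem norm_quadPart_le {f : EuclideanSpace ℂ (Fin n) → EuclideanSpace ℂ (Fin n)}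
    (hf : f ∈ classS0 n) {u : EuclideanSpace ℂ (Fin n)} (hu : ‖u‖ = 1) :
    ‖quadPart f u‖ ≤ 3 * Real.sqrt 3 / 2 := by
  obtain ⟨F, hF, rfl, hN⟩ := hf
  rw [quadPart_eq (hF.holo 0 le_rfl)]
  set C : ℝ := Real.sqrt (((2 : ℕ) + 1 : ℝ) ^ (2 + 1) / ((2 : ℕ) : ℝ) ^ 2) with hC
  have hCe : C = 3 * Real.sqrt 3 / 2 := by
    have h1 : (((2 : ℕ) + 1 : ℝ) ^ (2 + 1) / ((2 : ℕ) : ℝ) ^ 2) = (3 * Real.sqrt 3 / 2) ^ 2 := by
      have := Real.sq_sqrt (by norm_num : (0 : ℝ) ≤ 3)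
      push_cast
      nlinarith
    rw [hC, h1, Real.sqrt_sq (by positivity)]
  obtain ⟨M, hM⟩ := cof_bdd hF hN hu
  set S : Set ℝ := cof F u '' Ici 0 with hS
  have hSb : BddAbove S := ⟨M, by rintro _ ⟨t, ht, rfl⟩; exact hM t ht⟩
  have hSn : S.Nonempty := ⟨_, ⟨0, mem_Ici.2 le_rfl, rfl⟩⟩
  set q : ℝ := sSup S with hq
  have hle : ∀ δ : ℝ, 0 < δ → q ≤ C * Real.exp δ := by
    intro δ hδ
    have h1 : q ≤ C * (Real.exp δ - 1) + Real.exp (-δ) * q := by
      apply csSup_le hSn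
      rintro _ ⟨s, hs, rfl⟩
      have hs' : (0 : ℝ) ≤ s := hs
      have h6 := cof_step hF hu hs' hδ
      rw [← hC] at h6
      refine h6.trans ?_
      have h2 : cof F u (s + δ) ≤ q := le_csSup hSb ⟨s + δ, by
        show (0 : ℝ) ≤ s + δ
        linarith, rfl⟩
      have h3 := mul_le_mul_of_nonneg_left h2 (Real.exp_pos (-δ)).le
      linarith
    have h2 : Real.exp (-δ) * Real.exp δ = 1 := by rw [← Real.exp_add]; simp
    have h3 : Real.exp (-δ) < 1 := by rw [Real.exp_lt_one_iff]; linarith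
    have h4 : (1 - Real.exp (-δ)) * q ≤ (1 - Real.exp (-δ)) * (C * Real.exp δ) := by
      have h5 : (1 - Real.exp (-δ)) * (C * Real.exp δ) =
          C * (Real.exp δ - Real.exp (-δ) * Real.exp δ) := by ring
      rw [h5, h2]
      linarith
    exact le_of_mul_le_mul_left h4 (by linarith)
  have hqC : q ≤ C := by
    have h1 : Tendsto (fun δ : ℝ => C * Real.exp δ) (𝓝[>] 0) (𝓝 (C * Real.exp 0)) := by
      apply Tendsto.mono_left _ nhdsWithin_le_nhds
      have : Continuous (fun δ : ℝ => C * Real.exp δ) := by fun_prop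
      exact this.tendsto 0
    rw [Real.exp_zero, mul_one] at h1
    apply ge_of_tendsto h1
    filter_upwards [self_mem_nhdsWithin] with δ hδ using hle δ hδ
  have h0 : cof F u 0 ≤ q := le_csSup hSb ⟨0, mem_Ici.2 le_rfl, rfl⟩
  have h1 : cof F u 0 = ‖tc 2 (fun ζ : ℂ => F 0 (ζ • u))‖ := by simp [cof]
  rw [← h1, ← hCe]
  exact h0.trans hqC

/-- The elementary inequality behind the subordination of the extremal chain. -/
theorem core_ineq {x s lam : ℝ} (hs : 0 ≤ s) (h1 : x ^ 2 + s ≤ 1) (hl : 0 < lam)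
    (hl1 : lam ≤ 1) :
    lam ^ 2 * (1 + 3 * Real.sqrt 3 * (1 - lam) * x * s + 27 / 4 * (1 - lam) ^ 2 * s ^ 2) ≤ 1 := by
  set r : ℝ := Real.sqrt 3 with hr
  have hr0 : 0 < r := Real.sqrt_pos.2 (by norm_num)
  have hr2 : r ^ 2 = 3 := Real.sq_sqrt (by norm_num)
  have e1 : 2 * lam * (r * x) ≤ 3 * x ^ 2 + lam ^ 2 := by nlinarith [sq_nonneg (r * x - lam)]
  have e2 : 3 * r * lam ^ 2 * x * s ≤ 3 / 2 * lam * (3 * (1 - s) + lam ^ 2) * s := by
    have e3 : 3 * x ^ 2 + lam ^ 2 ≤ 3 * (1 - s) + lam ^ 2 := by linarith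
    have e4 : 0 ≤ lam * s := by positivity
    nlinarith [mul_le_mul_of_nonneg_left (e1.trans e3) e4]
  set A : ℝ := 3 / 2 * lam * (3 + lam ^ 2) with hA
  set B : ℝ := 9 / 4 * lam * (2 - 3 * lam + 3 * lam ^ 2) with hB
  have hB0 : 0 < B := by
    have : 0 < 2 - 3 * lam + 3 * lam ^ 2 := by nlinarith [sq_nonneg (lam - 1 / 2)]
    positivity
  have hdisc : A ^ 2 ≤ 4 * B * (1 + lam) := by
    have h5 : 4 * B * (1 + lam) - A ^ 2 =
        9 / 4 * lam * (1 - lam) ^ 2 * (8 + 3 * lam - 2 * lam ^ 2 - lam ^ 3) := by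
      rw [hA, hB]; ring
    have h6 : 0 ≤ 8 + 3 * lam - 2 * lam ^ 2 - lam ^ 3 := by
      have : lam ^ 2 ≤ 1 := pow_le_one₀ hl.le hl1
      have : lam ^ 3 ≤ 1 := pow_le_one₀ hl.le hl1
      linarith
    have h7 : 0 ≤ 9 / 4 * lam * (1 - lam) ^ 2 * (8 + 3 * lam - 2 * lam ^ 2 - lam ^ 3) := by
      positivity
    linarith
  have hquad : 0 ≤ 1 + lam - A * s + B * s ^ 2 := by
    have h8 : 4 * B * (1 + lam - A * s + B * s ^ 2) = (2 * B * s - A) ^ 2 +
        (4 * B * (1 + lam) - A ^ 2) := by ring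
    have h9 : 0 ≤ 4 * B * (1 + lam - A * s + B * s ^ 2) := by
      rw [h8]
      have := sq_nonneg (2 * B * s - A)
      linarith
    exact nonneg_of_mul_nonneg_right h9 (by positivity)
  have hfin : 3 * r * lam ^ 2 * x * s + 27 / 4 * lam ^ 2 * (1 - lam) * s ^ 2 ≤ 1 + lam := by
    have h10 : 3 / 2 * lam * (3 * (1 - s) + lam ^ 2) * s + 27 / 4 * lam ^ 2 * (1 - lam) * s ^ 2 =
        A * s - B * s ^ 2 := by
      rw [hA, hB]; ring
    linarith
  have hm := mul_le_mul_of_nonneg_left hfin (sub_nonneg.2 hl1)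
  nlinarith

section Extremal

/-- The map `z + a z_j^2 e_i`. -/
noncomputable def extr (a : ℝ) (i j : Fin n) :
    EuclideanSpace ℂ (Fin n) → EuclideanSpace ℂ (Fin n) :=
  fun z => z + ((a : ℂ) * (z j) ^ 2) • EuclideanSpace.single i (1 : ℂ)

theorem extr_hasFDerivAt (a : ℝ) (i j : Fin n) (z : EuclideanSpace ℂ (Fin n)) :
    HasFDerivAt (extr a i j)
      (ContinuousLinearMap.id ℂ (EuclideanSpace ℂ (Fin n)) +
        ((a : ℂ) • ((2 : ℕ) * (z j) ^ (2 - 1)) •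
          (EuclideanSpace.proj j : EuclideanSpace ℂ (Fin n) →L[ℂ] ℂ)).smulRight
            (EuclideanSpace.single i (1 : ℂ))) z := by
  have h0 : HasFDerivAt (fun z : EuclideanSpace ℂ (Fin n) => z j)
      (EuclideanSpace.proj j : EuclideanSpace ℂ (Fin n) →L[ℂ] ℂ) z :=
    (EuclideanSpace.proj j : EuclideanSpace ℂ (Fin n) →L[ℂ] ℂ).hasFDerivAt
  have h1 := h0.pow 2
  have h2 := h1.const_mul (a : ℂ)
  have h3 := h2.smul_const (EuclideanSpace.single i (1 : ℂ))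
  have h4 := (hasFDerivAt_id z).add h3
  refine h4.congr_fderiv ?_
  ext w k
  simp

theorem extr_apply (a : ℝ) (i j : Fin n) (z : EuclideanSpace ℂ (Fin n)) (k : Fin n) :
    extr a i j z k = z k + if k = i then (a : ℂ) * (z j) ^ 2 else 0 := by
  simp only [extr, PiLp.add_apply, PiLp.smul_apply, PiLp.single_apply, smul_eq_mul]
  split_ifs <;> simp

theorem extr_inj (a : ℝ) {i j : Fin n} (hij : i ≠ j) : Function.Injective (extr a i j) := by
  intro z w h
  have hj : z j = w j := by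
    have := congrArg (fun v : EuclideanSpace ℂ (Fin n) => v j) h
    simp only [extr_apply, if_neg hij.symm, add_zero] at this
    exact this
  ext k
  have := congrArg (fun v : EuclideanSpace ℂ (Fin n) => v k) h
  simp only [extr_apply, hj] at this
  exact add_right_cancel this

/-- The transition maps of the extremal chain. -/
noncomputable def trans (a lam : ℝ) (i j : Fin n) (z : EuclideanSpace ℂ (Fin n)) :
    EuclideanSpace ℂ (Fin n) :=
  (lam : ℂ) • extr (a * (1 - lam)) i j z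

theorem extr_trans (a lam : ℝ) {i j : Fin n} (hij : i ≠ j) (z : EuclideanSpace ℂ (Fin n)) :
    extr a i j (trans a lam i j z) = (lam : ℂ) • extr a i j z := by
  ext k
  simp only [extr_apply, trans, PiLp.smul_apply, smul_eq_mul, if_neg hij.symm, add_zero]
  split_ifs
  · push_cast; ring
  · ring

theorem norm_trans_le {i j : Fin n} (hij : i ≠ j) {lam : ℝ} (hl : 0 < lam) (hl1 : lam ≤ 1)
    {z : EuclideanSpace ℂ (Fin n)} (hz : ‖z‖ ≤ 1) :
    ‖trans (3 * Real.sqrt 3 / 2) lam i j z‖ ≤ 1 := by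
  set a : ℝ := 3 * Real.sqrt 3 / 2 with ha
  have ha0 : 0 ≤ a := by positivity
  have ha2 : a ^ 2 = 27 / 4 := by
    have := Real.sq_sqrt (by norm_num : (0 : ℝ) ≤ 3)
    rw [ha]
    nlinarith
  set x : ℝ := ‖z i‖ with hx
  set y : ℝ := ‖z j‖ with hy
  have hsum : x ^ 2 + y ^ 2 ≤ ‖z‖ ^ 2 := by
    rw [EuclideanSpace.norm_sq_eq]
    calc x ^ 2 + y ^ 2 = ∑ k ∈ ({i, j} : Finset (Fin n)), ‖z k‖ ^ 2 := by
          rw [Finset.sum_pair hij]
      _ ≤ ∑ k, ‖z k‖ ^ 2 := Finset.sum_le_univ_sum_of_nonneg (fun k => by positivity)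
  have hz2 : ‖z‖ ^ 2 ≤ 1 := pow_le_one₀ (norm_nonneg _) hz
  set c : ℂ := ((a * (1 - lam) : ℝ) : ℂ) * (z j) ^ 2 with hc
  have hcn : ‖c‖ = a * (1 - lam) * y ^ 2 := by
    rw [hc, norm_mul, norm_pow, Complex.norm_real,
      Real.norm_of_nonneg (mul_nonneg ha0 (by linarith))]
  have hext : ‖extr (a * (1 - lam)) i j z‖ ^ 2 ≤ ‖z‖ ^ 2 + 2 * (x * ‖c‖) + ‖c‖ ^ 2 := by
    have h1 := norm_add_sq (𝕜 := ℂ) z (c • EuclideanSpace.single i (1 : ℂ))
    have h2 : inner ℂ z (c • EuclideanSpace.single i (1 : ℂ)) = c * (starRingEnd ℂ) (z i) := by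
      rw [inner_smul_right]
      simp [EuclideanSpace.inner_single_right]
    have h3 : ‖c • EuclideanSpace.single i (1 : ℂ)‖ = ‖c‖ := by
      rw [norm_smul]; simp
    rw [h2, h3] at h1
    have h4 : RCLike.re (c * (starRingEnd ℂ) (z i)) ≤ x * ‖c‖ := by
      refine (RCLike.re_le_norm _).trans ?_
      rw [norm_mul, RCLike.norm_conj, mul_comm]
    have h5 : extr (a * (1 - lam)) i j z = z + c • EuclideanSpace.single i (1 : ℂ) := rfl
    rw [h5, h1]
    linarith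
  have hfin : ‖trans a lam i j z‖ ^ 2 ≤ 1 := by
    rw [trans, norm_smul, Complex.norm_real, Real.norm_of_nonneg hl.le, mul_pow]
    have h1 : ‖extr (a * (1 - lam)) i j z‖ ^ 2 ≤ 1 + 3 * Real.sqrt 3 * (1 - lam) * x * y ^ 2 +
        27 / 4 * (1 - lam) ^ 2 * (y ^ 2) ^ 2 := by
      refine hext.trans ?_
      rw [hcn]
      have e1 : 2 * (x * (a * (1 - lam) * y ^ 2)) = 3 * Real.sqrt 3 * (1 - lam) * x * y ^ 2 := by
        rw [ha]; ring
      have e2 : (a * (1 - lam) * y ^ 2) ^ 2 = 27 / 4 * (1 - lam) ^ 2 * (y ^ 2) ^ 2 := by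
        rw [mul_pow, mul_pow, ha2]
      rw [e1, e2]
      linarith
    calc lam ^ 2 * ‖extr (a * (1 - lam)) i j z‖ ^ 2 ≤ lam ^ 2 * (1 + 3 * Real.sqrt 3 * (1 - lam) *
          x * y ^ 2 + 27 / 4 * (1 - lam) ^ 2 * (y ^ 2) ^ 2) := by gcongr
      _ ≤ 1 := core_ineq (by positivity) (by linarith) hl hl1
  have h1 : ‖trans a lam i j z‖ ^ 2 ≤ 1 ^ 2 := by rw [one_pow]; exact hfin
  exact (pow_le_pow_iff_left₀ (norm_nonneg _) zero_le_one two_ne_zero).1 h1

theorem extr_mem {i j : Fin n} (hij : i ≠ j) : extr (3 * Real.sqrt 3 / 2) i j ∈ classS0 n := by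
  set a : ℝ := 3 * Real.sqrt 3 / 2 with ha
  have hne : ∀ t : ℝ, ((Real.exp t : ℝ) : ℂ) ≠ 0 := fun t => by
    exact_mod_cast (Real.exp_pos t).ne'
  refine ⟨fun t z => ((Real.exp t : ℝ) : ℂ) • extr a i j z, ⟨?_, ?_, ?_, ?_, ?_⟩, ?_, ?_⟩
  · intro t _ z _
    exact ((extr_hasFDerivAt a i j z).differentiableAt.fun_const_smul
      (((Real.exp t : ℝ) : ℂ))).differentiableWithinAt
  · intro t _ z _ w _ h
    exact extr_inj a hij (smul_right_injective _ (hne t) h)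
  · intro t _
    simp [extr]
  · intro t _
    have h1 : HasFDerivAt (fun z => ((Real.exp t : ℝ) : ℂ) • extr a i j z) _ 0 :=
      (extr_hasFDerivAt a i j 0).const_smul (((Real.exp t : ℝ) : ℂ))
    rw [h1.fderiv]
    congr 1
    ext w k
    simp
  · rintro s t hs hst _ ⟨z, hz, rfl⟩
    set lam : ℝ := Real.exp (s - t) with hlam
    have hl : 0 < lam := Real.exp_pos _
    have hl1 : lam ≤ 1 := by rw [hlam, Real.exp_le_one_iff]; linarith
    refine ⟨trans a lam i j z, ?_, ?_⟩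
    · rw [mem_ball_zero_iff] at *
      have hd : DifferentiableOn ℂ (trans a lam i j) (ball 0 1) := fun z _ =>
        ((extr_hasFDerivAt (a * (1 - lam)) i j z).differentiableAt.fun_const_smul
          (lam : ℂ)).differentiableWithinAt
      have h0 : trans a lam i j 0 = 0 := by simp [trans, extr]
      have hm : MapsTo (trans a lam i j) (ball 0 1) (closedBall 0 1) := by
        intro w hw
        rw [mem_closedBall_zero_iff]
        exact norm_trans_le hij hl hl1 (mem_ball_zero_iff.1 hw).le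
      exact (Complex.norm_le_norm_of_mapsTo_ball hd hm h0 hz).trans_lt hz
    · show ((Real.exp t : ℝ) : ℂ) • extr a i j (trans a lam i j z) =
        ((Real.exp s : ℝ) : ℂ) • extr a i j z
      rw [extr_trans a lam hij, smul_smul, hlam, ← Complex.ofReal_mul, ← Real.exp_add]
      congr 3
      ring
  · ext1 z
    simp
  · intro g hg
    refine ⟨id, strictMono_id, extr a i j, ?_⟩
    have h1 : ∀ k, g k = extr a i j := by
      intro k
      obtain ⟨t, _, hgt⟩ := hg k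
      rw [hgt]
      ext1 z
      rw [smul_smul, ← Complex.ofReal_mul, ← Real.exp_add]
      simp
    simp only [h1]
    exact TendstoUniformlyOn.tendstoLocallyUniformlyOn (fun u hu => by
      filter_upwards with k z _ using refl_mem_uniformity hu)

theorem quadPart_extr (a : ℝ) {i j : Fin n} (hd : DifferentiableOn ℂ (extr a i j) (ball 0 1)) :
    quadPart (extr a i j) (EuclideanSpace.single j (1 : ℂ)) =
      (a : ℂ) • EuclideanSpace.single i (1 : ℂ) := by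
  rw [quadPart_eq hd]
  have e1 : (fun t : ℂ => extr a i j (t • EuclideanSpace.single j (1 : ℂ))) =
      fun t : ℂ => t ^ 1 • EuclideanSpace.single j (1 : ℂ) +
        t ^ 2 • ((a : ℂ) • EuclideanSpace.single i (1 : ℂ)) := by
    ext1 t
    simp only [extr, pow_one, smul_smul]
    congr 2
    simp
    ring
  rw [e1, tc_add 2 (by fun_prop) (by fun_prop), tc_pow_smul, tc_pow_smul, if_neg (by omega),
    if_pos rfl, zero_add]

end Extremal

/-- For every `n ≥ 2`, the supremum of `‖P_2‖` over the maps with parametric representation on the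
unit ball of `ℂ^n` is `3 √3 / 2`, and it is attained. -/
theorem result (n : ℕ) (hn : 2 ≤ n) :
    IsGreatest (quadNorm '' classS0 n) (3 * Real.sqrt 3 / 2) := by
  have ha0 : 0 ≤ 3 * Real.sqrt 3 / 2 := by positivity
  let i : Fin n := ⟨0, by omega⟩
  let j : Fin n := ⟨1, by omega⟩
  have hij : i ≠ j := by simp [i, j]
  have hle : ∀ f ∈ classS0 n, quadNorm f ≤ 3 * Real.sqrt 3 / 2 := by
    intro f hf
    apply Real.sSup_le _ ha0
    rintro _ ⟨z, hz, rfl⟩
    exact norm_quadPart_le hf (by simpa using hz)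
  refine ⟨⟨extr (3 * Real.sqrt 3 / 2) i j, extr_mem hij, ?_⟩, ?_⟩
  · apply le_antisymm (hle _ (extr_mem hij))
    have hbdd : BddAbove ((fun z => ‖quadPart (extr (3 * Real.sqrt 3 / 2) i j) z‖) ''
        sphere (0 : EuclideanSpace ℂ (Fin n)) 1) := by
      refine ⟨3 * Real.sqrt 3 / 2, ?_⟩
      rintro _ ⟨z, hz, rfl⟩
      exact norm_quadPart_le (extr_mem hij) (by simpa using hz)
    apply le_csSup hbdd
    refine ⟨EuclideanSpace.single j (1 : ℂ), by simp, ?_⟩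
    simp only
    rw [quadPart_extr _ (fun z _ =>
      (extr_hasFDerivAt _ i j z).differentiableAt.differentiableWithinAt), norm_smul,
      Complex.norm_real, Real.norm_of_nonneg ha0]
    simp
  · rintro _ ⟨f, hf, rfl⟩
    exact hle f hf

end Pool.Agent.Results.MP_2306a6_an.SharpSecond
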